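import Mathlib

/-!
# A 2-connected graph with `Γ_b < α_bnr`

The upper bnr-independence number can exceed the upper broadcast domination number
on a 2-connected graph.  The example has 12 vertices.  It is obtained from a 9-vertex
connected graph (vertices `0,...,8`) by giving each of its three cut vertices `4, 5, 8`
an adjacent twin (`9, 10, 11`).
-/

namespace Pool.Agent.Results.MP_20154b_co.TwinCounterexample

section Defs

variable {V : Type*} [Fintype V]

/-- The eccentricity `e(v) = max_u d(v,u)`. -/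
noncomputable def ecc (G : SimpleGraph V) (v : V) : ℕ :=
  Finset.univ.sup fun u => G.dist v u

/-- The diameter `max_v e(v)`. -/
noncomputable def diameter (G : SimpleGraph V) : ℕ :=
  Finset.univ.sup fun v => ecc G v

/-- A broadcast: `f : V → {0,...,diam G}` with `f v ≤ e(v)` for all `v`. -/
def IsBroadcast (G : SimpleGraph V) (f : V → ℕ) : Prop :=
  ∀ v, f v ≤ diameter G ∧ f v ≤ ecc G v

/-- The weight `σ(f)`. -/
def weight (f : V → ℕ) : ℕ := ∑ v, f v

/-- `u` hears `f` from `v`: `v` is a broadcasting vertex (`f v > 0`) and `d(u,v) ≤ f v`. -/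
def Hears (G : SimpleGraph V) (f : V → ℕ) (u v : V) : Prop :=
  0 < f v ∧ G.dist u v ≤ f v

/-- Every vertex hears `f` from some broadcasting vertex. -/
def Dominating (G : SimpleGraph V) (f : V → ℕ) : Prop :=
  ∀ u, ∃ v, Hears G f u v

/-- A minimal dominating broadcast: no broadcast `g < f` is dominating. -/
def MinimalDominating (G : SimpleGraph V) (f : V → ℕ) : Prop :=
  IsBroadcast G f ∧ Dominating G f ∧
    ∀ g : V → ℕ, IsBroadcast G g → (∀ v, g v ≤ f v) → g ≠ f → ¬ Dominating G g

/-- The upper broadcast domination number `Γ_b(G)`. -/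
noncomputable def upperBroadcastDomination (G : SimpleGraph V) : ℕ :=
  sSup {w | ∃ f : V → ℕ, MinimalDominating G f ∧ weight f = w}

/-- `N_f(v) = {u : d(u,v) ≤ f v}`. -/
def nbhd (G : SimpleGraph V) (f : V → ℕ) (v : V) : Set V := {u | G.dist u v ≤ f v}

/-- `B_f(v) = {u : d(u,v) = f v}`. -/
def boundary (G : SimpleGraph V) (f : V → ℕ) (v : V) : Set V := {u | G.dist u v = f v}

/-- bn-independence: `N_f(u) ∩ N_f(v) ⊆ B_f(u) ∩ B_f(v)` for distinct broadcasting `u, v`. -/
def BnIndependent (G : SimpleGraph V) (f : V → ℕ) : Prop :=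
  ∀ u v, u ≠ v → 0 < f u → 0 < f v →
    nbhd G f u ∩ nbhd G f v ⊆ boundary G f u ∩ boundary G f v

/-- `f_v`: agrees with `f` except that `f_v(v) = f(v) - 1`. -/
noncomputable def lower (f : V → ℕ) (v : V) : V → ℕ :=
  open Classical in Function.update f v (f v - 1)

/-- `PB_f(v)`: the vertices of `N_f(v)` that hear `f_v` from no vertex. -/
def privateBoundary (G : SimpleGraph V) (f : V → ℕ) (v : V) : Set V :=
  {u | u ∈ nbhd G f v ∧ ∀ w, ¬ Hears G (lower f v) u w}

/-- `f` is irredundant: `PB_f(v) ≠ ∅` for every broadcasting `v`. -/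
def Irredundant (G : SimpleGraph V) (f : V → ℕ) : Prop :=
  ∀ v, 0 < f v → (privateBoundary G f v).Nonempty

/-- A bnr-independent broadcast. -/
def BnrIndependent (G : SimpleGraph V) (f : V → ℕ) : Prop :=
  IsBroadcast G f ∧ BnIndependent G f ∧ Irredundant G f

/-- The upper bnr-independence number `α_bnr(G)`. -/
noncomputable def upperBnr (G : SimpleGraph V) : ℕ :=
  sSup {w | ∃ f : V → ℕ, BnrIndependent G f ∧ weight f = w}

/-- 2-connected: at least 3 vertices, connected, and no cut vertex. -/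
def TwoConnected (G : SimpleGraph V) : Prop :=
  3 ≤ Fintype.card V ∧ G.Connected ∧ ∀ v : V, (G.induce {v}ᶜ).Connected

end Defs

/-! ## The graph -/

/-- Edge list. -/
def edges : List (Fin 12 × Fin 12) :=
  [(0, 8), (0, 11), (1, 5), (1, 10), (2, 4), (2, 9), (3, 6), (3, 7), (4, 7), (4, 8),
   (4, 9), (4, 11), (5, 6), (5, 8), (5, 10), (5, 11), (6, 7), (6, 8), (6, 10), (6, 11),
   (7, 8), (7, 9), (7, 11), (8, 9), (8, 10), (8, 11), (9, 11), (10, 11)]

/-- The 12-vertex example. -/
def G12 : SimpleGraph (Fin 12) where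
  Adj a b := (a, b) ∈ edges ∨ (b, a) ∈ edges
  symm := ⟨fun _ _ h => h.symm⟩
  loopless := ⟨by decide⟩

instance : DecidableRel G12.Adj := fun a b =>
  inferInstanceAs (Decidable ((a, b) ∈ edges ∨ (b, a) ∈ edges))

/-- Distance table. -/
def tab : List (List ℕ) :=
  [[0, 3, 3, 3, 2, 2, 2, 2, 1, 2, 2, 1],
   [3, 0, 4, 3, 3, 1, 2, 3, 2, 3, 1, 2],
   [3, 4, 0, 3, 1, 3, 3, 2, 2, 1, 3, 2],
   [3, 3, 3, 0, 2, 2, 1, 1, 2, 2, 2, 2],
   [2, 3, 1, 2, 0, 2, 2, 1, 1, 1, 2, 1],
   [2, 1, 3, 2, 2, 0, 1, 2, 1, 2, 1, 1],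
   [2, 2, 3, 1, 2, 1, 0, 1, 1, 2, 1, 1],
   [2, 3, 2, 1, 1, 2, 1, 0, 1, 1, 2, 1],
   [1, 2, 2, 2, 1, 1, 1, 1, 0, 1, 1, 1],
   [2, 3, 1, 2, 1, 2, 2, 1, 1, 0, 2, 1],
   [2, 1, 3, 2, 2, 1, 1, 2, 1, 2, 0, 1],
   [1, 2, 2, 2, 1, 1, 1, 1, 1, 1, 1, 0]]

/-- Table lookup. -/
def dm (a b : ℕ) : ℕ := (tab.getD a []).getD b 0

/-! ## Distances -/

lemma exists_walk_of_table {V : Type*} (G : SimpleGraph V) (D : V → V → ℕ)
    (hz : ∀ a, D a a = 0) (h0 : ∀ a b, D a b = 0 → a = b)
    (h2 : ∀ a b, a ≠ b → ∃ w, G.Adj a w ∧ D a b = D w b + 1) :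
    ∀ (n : ℕ) (a b : V), D a b = n → ∃ p : G.Walk a b, p.length = n := by
  intro n
  induction n with
  | zero =>
    intro a b h
    obtain rfl := h0 a b h
    exact ⟨SimpleGraph.Walk.nil, rfl⟩
  | succ n ih =>
    intro a b h
    have hab : a ≠ b := by
      rintro rfl
      rw [hz] at h
      exact absurd h (by omega)
    obtain ⟨w, hw, hD⟩ := h2 a b hab
    obtain ⟨p, hp⟩ := ih w b (by omega)
    exact ⟨SimpleGraph.Walk.cons hw p, by simp [hp]⟩

lemma table_le_length {V : Type*} (G : SimpleGraph V) (D : V → V → ℕ)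
    (hz : ∀ a, D a a = 0)
    (h1 : ∀ a w b, G.Adj a w → D a b ≤ D w b + 1) :
    ∀ {a b : V} (p : G.Walk a b), D a b ≤ p.length := by
  intro a b p
  induction p with
  | nil => simp [hz]
  | cons h p ih =>
    rw [SimpleGraph.Walk.length_cons]
    exact (h1 _ _ _ h).trans (by omega)

lemma dist_eq_of_table {V : Type*} (G : SimpleGraph V) (D : V → V → ℕ)
    (hz : ∀ a, D a a = 0) (h0 : ∀ a b, D a b = 0 → a = b)
    (h1 : ∀ a w b, G.Adj a w → D a b ≤ D w b + 1)
    (h2 : ∀ a b, a ≠ b → ∃ w, G.Adj a w ∧ D a b = D w b + 1) (a b : V) :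
    G.Reachable a b ∧ G.dist a b = D a b := by
  obtain ⟨p, hp⟩ := exists_walk_of_table G D hz h0 h2 (D a b) a b rfl
  refine ⟨⟨p⟩, le_antisymm (hp ▸ SimpleGraph.dist_le p) ?_⟩
  obtain ⟨q, hq⟩ := SimpleGraph.Reachable.exists_walk_length_eq_dist (⟨p⟩ : G.Reachable a b)
  rw [← hq]
  exact table_le_length G D hz h1 q

lemma G12_dist (a b : Fin 12) : G12.Reachable a b ∧ G12.dist a b = dm a b := by
  refine dist_eq_of_table G12 (fun a b : Fin 12 => dm a b) ?_ ?_ ?_ ?_ a b
  · decide
  · decide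
  · decide
  · decide

lemma G12_connected : G12.Connected := by
  rw [SimpleGraph.connected_iff]
  exact ⟨fun a b => (G12_dist a b).1, ⟨0⟩⟩

/-- A root avoiding `v`. -/
def root (v : Fin 12) : Fin 12 := if v = 8 then 11 else 8

lemma root_spec : ∀ v : Fin 12, root v ≠ v ∧ ∀ a, a ≠ v → a = root v ∨ G12.Adj (root v) a ∨
    ∃ w, w ≠ v ∧ G12.Adj (root v) w ∧ G12.Adj w a := by
  decide

lemma G12_induce_connected (v : Fin 12) : (G12.induce ({v}ᶜ : Set (Fin 12))).Connected := by
  rw [SimpleGraph.connected_iff_exists_forall_reachable]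
  obtain ⟨hr, h⟩ := root_spec v
  refine ⟨⟨root v, by simpa using hr⟩, ?_⟩
  rintro ⟨a, ha⟩
  have ha' : a ≠ v := by simpa using ha
  rcases h a ha' with h | h | ⟨w, hw, h1, h2⟩
  · subst h
    exact SimpleGraph.Reachable.refl _
  · apply SimpleGraph.Adj.reachable
    simpa using h
  · have e1 : (G12.induce ({v}ᶜ : Set (Fin 12))).Adj ⟨root v, by simpa using hr⟩
        ⟨w, by simpa using hw⟩ := by simpa using h1
    have e2 : (G12.induce ({v}ᶜ : Set (Fin 12))).Adj ⟨w, by simpa using hw⟩ ⟨a, ha⟩ := by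
      simpa using h2
    exact e1.reachable.trans e2.reachable

lemma G12_twoConnected : TwoConnected G12 :=
  ⟨by simp, G12_connected, G12_induce_connected⟩

/-! ## Minimal dominating broadcasts are irredundant -/

lemma lower_apply {V : Type*} (f : V → ℕ) (v w : V) [Decidable (w = v)] :
    lower f v w = if w = v then f v - 1 else f w := by
  unfold lower
  by_cases h : w = v
  · subst h; simp
  · simp [h]

lemma MinimalDominating.irredundant {V : Type*} [Fintype V] {G : SimpleGraph V} {f : V → ℕ}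
    (hf : MinimalDominating G f) : Irredundant G f := by
  classical
  intro v hv
  obtain ⟨hb, hd, hmin⟩ := hf
  have hle : ∀ w, lower f v w ≤ f w := by
    intro w
    rw [lower_apply]
    split_ifs with h
    · subst h; omega
    · exact le_rfl
  have hne : lower f v ≠ f := by
    intro h
    have := congrFun h v
    rw [lower_apply] at this
    simp at this
    omega
  have hnd := hmin (lower f v) (fun w => ⟨(hle w).trans (hb w).1, (hle w).trans (hb w).2⟩) hle hne
  unfold Dominating at hnd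
  push Not at hnd
  obtain ⟨u, hu⟩ := hnd
  refine ⟨u, ?_, hu⟩
  obtain ⟨v', hv'1, hv'2⟩ := hd u
  by_cases h : v' = v
  · subst h
    exact hv'2
  · exfalso
    refine hu v' ⟨?_, ?_⟩
    · rw [lower_apply, if_neg h]; exact hv'1
    · rw [lower_apply, if_neg h]; exact hv'2

/-! ## The verified search -/

/-- Eccentricities. -/
def eccT : List ℕ := [3, 4, 4, 3, 3, 3, 3, 3, 2, 3, 3, 2]

/-- Bit masks of the balls `{u : d(v,u) ≤ r}`, for `r = 0,...,4`. -/
def balls : List (List ℕ) :=
  [[1, 2305, 4081, 4095, 4095],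
   [2, 1058, 3426, 4091, 4095],
   [4, 532, 2964, 4093, 4095],
   [8, 200, 4088, 4095, 4095],
   [16, 2964, 4093, 4095, 4095],
   [32, 3426, 4091, 4095, 4095],
   [64, 3560, 4091, 4095, 4095],
   [128, 3032, 4093, 4095, 4095],
   [256, 4081, 4095, 4095, 4095],
   [512, 2964, 4093, 4095, 4095],
   [1024, 3426, 4091, 4095, 4095],
   [2048, 4081, 4095, 4095, 4095]]

/-- Bit masks of the possible private boundaries. -/
def cands : List (List ℕ) :=
  [[0, 2305, 1776, 14, 0],
   [0, 1058, 2368, 665, 4],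
   [0, 532, 2432, 1129, 2],
   [0, 200, 3888, 7, 0],
   [0, 2964, 1129, 2, 0],
   [0, 3426, 665, 4, 0],
   [0, 3560, 531, 4, 0],
   [0, 3032, 1061, 2, 0],
   [0, 4081, 14, 0, 0],
   [0, 2964, 1129, 2, 0],
   [0, 3426, 665, 4, 0],
   [0, 4081, 14, 0, 0]]

/-- Ball mask lookup. -/
def ballM (v r : ℕ) : ℕ := (balls.getD v []).getD r 0

/-- Candidate mask lookup. -/
def candM (v r : ℕ) : ℕ := (cands.getD v []).getD r 0

/-- Eccentricity lookup. -/
def eccM (v : ℕ) : ℕ := eccT.getD v 0

/-- Depth-first search over all irredundant assignments; `true` if every dominating one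
has weight at most 4. -/
def go : List ℕ → ℕ → ℕ → List ℕ → ℕ → Bool
  | [], h1, _, _, w => !((List.range 12).all fun u => h1.testBit u) || decide (w ≤ 4)
  | v :: vs, h1, h2, cs, w =>
    go vs h1 h2 cs w &&
      (List.range' 1 (eccM v)).all fun r =>
        !((candM v r :: cs).all fun c => (c &&& (h2 ||| (h1 &&& ballM v r))) != c) ||
          go vs (h1 ||| ballM v r) (h2 ||| (h1 &&& ballM v r)) (candM v r :: cs) (w + r)

set_option maxRecDepth 100000 in
lemma go_eq_true : go (List.range 12) 0 0 [] 0 = true := by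
  decide +kernel

lemma go_sound (F : ℕ → ℕ)
    (hirr : ∀ v < 12, 0 < F v → ∃ u, (candM v (F v)).testBit u = true ∧
      ∀ w < 12, w ≠ v → 0 < F w → (ballM w (F w)).testBit u = false)
    (hdom : ∀ u < 12, ∃ v < 12, 0 < F v ∧ (ballM v (F v)).testBit u = true)
    (hecc : ∀ v < 12, F v ≤ eccM v) :
    ∀ (vs ps : List ℕ) (h1 h2 : ℕ) (cs : List ℕ) (w : ℕ),
      ps ++ vs = List.range 12 →
      (∀ u, h1.testBit u = true ↔ ∃ v ∈ ps, 0 < F v ∧ (ballM v (F v)).testBit u = true) →
      (∀ u, h2.testBit u = true → ∃ v ∈ ps, ∃ v' ∈ ps, v ≠ v' ∧ (0 < F v ∧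
        (ballM v (F v)).testBit u = true) ∧ 0 < F v' ∧ (ballM v' (F v')).testBit u = true) →
      (∀ c ∈ cs, ∃ v ∈ ps, 0 < F v ∧ c = candM v (F v)) →
      w = (ps.map F).sum →
      go vs h1 h2 cs w = true → ((List.range 12).map F).sum ≤ 4 := by
  intro vs
  induction vs with
  | nil =>
    intro ps h1 h2 cs w hps H1 H2 H3 H4 hgo
    rw [List.append_nil] at hps
    subst hps
    unfold go at hgo
    rw [Bool.or_eq_true] at hgo
    rcases hgo with h | h
    · exfalso
      rw [Bool.not_eq_true', ← Bool.not_eq_true] at h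
      apply h
      rw [List.all_eq_true]
      intro u hu
      rw [List.mem_range] at hu
      obtain ⟨v, hv, hv2⟩ := hdom u hu
      exact (H1 u).2 ⟨v, List.mem_range.2 hv, hv2⟩
    · rw [← H4]
      exact of_decide_eq_true h
  | cons v vs ih =>
    intro ps h1 h2 cs w hps H1 H2 H3 H4 hgo
    unfold go at hgo
    rw [Bool.and_eq_true, List.all_eq_true] at hgo
    obtain ⟨hg0, hgr⟩ := hgo
    have hps' : (ps ++ [v]) ++ vs = List.range 12 := by simpa using hps
    have hmem : ∀ x ∈ ps ++ [v], x < 12 := by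
      intro x hx
      have : x ∈ List.range 12 := by
        rw [← hps']; exact List.mem_append_left _ hx
      exact List.mem_range.1 this
    have hnd : (ps ++ [v]).Nodup := by
      have : (List.range 12).Nodup := List.nodup_range
      rw [← hps'] at this
      exact (List.nodup_append.1 this).1
    have hvps : v ∉ ps := by
      intro h
      rw [List.nodup_append] at hnd
      exact hnd.2.2 v h v (by simp) rfl
    rcases Nat.eq_zero_or_pos (F v) with h0 | hpos
    · refine ih (ps ++ [v]) h1 h2 cs w hps' ?_ ?_ ?_ ?_ hg0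
      · intro u
        rw [H1 u]
        constructor
        · rintro ⟨x, hx, h⟩
          exact ⟨x, List.mem_append_left _ hx, h⟩
        · rintro ⟨x, hx, h⟩
          rcases List.mem_append.1 hx with hx | hx
          · exact ⟨x, hx, h⟩
          · rw [List.mem_singleton] at hx
            subst hx
            exact absurd h.1 (by omega)
      · intro u hu
        obtain ⟨x, hx, y, hy, h⟩ := H2 u hu
        exact ⟨x, List.mem_append_left _ hx, y, List.mem_append_left _ hy, h⟩
      · intro c hc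
        obtain ⟨x, hx, h⟩ := H3 c hc
        exact ⟨x, List.mem_append_left _ hx, h⟩
      · simp [H4, h0]
    · have hr : F v ∈ List.range' 1 (eccM v) := by
        rw [List.mem_range'_1]
        have := hecc v (hmem v (by simp))
        omega
      have key := hgr (F v) hr
      have H1' : ∀ u, (h1 ||| ballM v (F v)).testBit u = true ↔
          ∃ x ∈ ps ++ [v], 0 < F x ∧ (ballM x (F x)).testBit u = true := by
        intro u
        rw [Nat.testBit_or, Bool.or_eq_true, H1 u]
        constructor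
        · rintro (⟨x, hx, h⟩ | h)
          · exact ⟨x, List.mem_append_left _ hx, h⟩
          · exact ⟨v, by simp, hpos, h⟩
        · rintro ⟨x, hx, h⟩
          rcases List.mem_append.1 hx with hx | hx
          · exact Or.inl ⟨x, hx, h⟩
          · rw [List.mem_singleton] at hx
            subst hx
            exact Or.inr h.2
      have H2' : ∀ u, (h2 ||| (h1 &&& ballM v (F v))).testBit u = true →
          ∃ x ∈ ps ++ [v], ∃ y ∈ ps ++ [v], x ≠ y ∧ (0 < F x ∧
            (ballM x (F x)).testBit u = true) ∧ 0 < F y ∧ (ballM y (F y)).testBit u = true := by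
        intro u hu
        rw [Nat.testBit_or, Bool.or_eq_true, Nat.testBit_and, Bool.and_eq_true] at hu
        rcases hu with hu | ⟨hu1, hu2⟩
        · obtain ⟨x, hx, y, hy, h⟩ := H2 u hu
          exact ⟨x, List.mem_append_left _ hx, y, List.mem_append_left _ hy, h⟩
        · obtain ⟨x, hx, h⟩ := (H1 u).1 hu1
          refine ⟨x, List.mem_append_left _ hx, v, by simp, ?_, h, hpos, hu2⟩
          rintro rfl
          exact hvps hx
      have H3' : ∀ c ∈ candM v (F v) :: cs, ∃ x ∈ ps ++ [v], 0 < F x ∧ c = candM x (F x) := by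
        intro c hc
        rcases List.mem_cons.1 hc with rfl | hc
        · exact ⟨v, by simp, hpos, rfl⟩
        · obtain ⟨x, hx, h⟩ := H3 c hc
          exact ⟨x, List.mem_append_left _ hx, h⟩
      rw [Bool.or_eq_true] at key
      rcases key with key | key
      · exfalso
        rw [Bool.not_eq_true', ← Bool.not_eq_true] at key
        apply key
        rw [List.all_eq_true]
        intro c hc
        obtain ⟨x, hx, hx0, rfl⟩ := H3' c hc
        obtain ⟨u, hu1, hu2⟩ := hirr x (hmem x hx) hx0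
        rw [bne_iff_ne]
        intro heq
        have hb := congrArg (fun m => Nat.testBit m u) heq
        simp only [Nat.testBit_and] at hb
        rw [hu1, Bool.true_and] at hb
        obtain ⟨y, hy, z, hz, hyz, hy', hz'⟩ := H2' u hb
        by_cases hyx : y = x
        · have hzx : z ≠ x := by rintro rfl; exact hyz hyx
          have := hu2 z (hmem z hz) hzx hz'.1
          rw [hz'.2] at this
          exact absurd this (by simp)
        · have := hu2 y (hmem y hy) hyx hy'.1
          rw [hy'.2] at this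
          exact absurd this (by simp)
      · exact ih (ps ++ [v]) _ _ _ _ hps' H1' H2' H3' (by simp [H4]) key

lemma ball_spec : ∀ v u : Fin 12, ∀ r : Fin 5,
    (ballM v r).testBit u = decide (dm u v ≤ r) := by
  decide +kernel

lemma cand_spec : ∀ v u : Fin 12, ∀ r : Fin 5, 1 ≤ (r : ℕ) → (r : ℕ) ≤ eccM v →
    (candM v r).testBit u = decide (((r : ℕ) = 1 ∧ dm u v ≤ 1) ∨ dm u v = r) := by
  decide +kernel

lemma eccM_spec : ∀ v u : Fin 12, dm v u ≤ eccM v := by
  decide +kernel

lemma eccM_le : ∀ v : Fin 12, eccM v ≤ 4 := by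
  decide +kernel

lemma ecc_le (v : Fin 12) : ecc G12 v ≤ eccM v := by
  unfold ecc
  apply Finset.sup_le
  intro u _
  rw [(G12_dist v u).2]
  exact eccM_spec v u

lemma irredundant_dominating_weight_le (f : Fin 12 → ℕ) (hb : IsBroadcast G12 f)
    (hd : Dominating G12 f) (hi : Irredundant G12 f) : weight f ≤ 4 := by
  classical
  set F : ℕ → ℕ := fun v => if h : v < 12 then f ⟨v, h⟩ else 0 with hF
  have hFf : ∀ v : Fin 12, F v = f v := by
    intro v
    simp [hF, v.isLt]
  have hfe : ∀ v : Fin 12, f v ≤ eccM v := fun v => ((hb v).2).trans (ecc_le v)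
  have hball : ∀ v u : Fin 12, (ballM v (f v)).testBit u = decide (dm u v ≤ f v) := by
    intro v u
    have h4 : f v < 5 := by
      have := hfe v
      have := eccM_le v
      omega
    exact ball_spec v u ⟨f v, h4⟩
  have hweight : weight f = ((List.range 12).map F).sum := by
    have h1 : weight f = ∑ i ∈ Finset.range 12, F i := by
      unfold weight
      rw [Finset.sum_range]
      exact Finset.sum_congr rfl fun v _ => (hFf v).symm
    rw [h1]
    rfl
  rw [hweight]
  refine go_sound F ?_ ?_ ?_ (List.range 12) [] 0 0 [] 0 (by simp) ?_ ?_ ?_ (by simp) go_eq_true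
  · intro v hv hpos
    have hv' : F v = f ⟨v, hv⟩ := hFf ⟨v, hv⟩
    rw [hv'] at hpos
    obtain ⟨u, hu1, hu2⟩ := hi ⟨v, hv⟩ hpos
    have hu1' : dm u v ≤ f ⟨v, hv⟩ := by
      have h := hu1
      change G12.dist u ⟨v, hv⟩ ≤ f ⟨v, hv⟩ at h
      rw [(G12_dist u ⟨v, hv⟩).2] at h
      exact h
    refine ⟨u, ?_, ?_⟩
    · have h4 : f ⟨v, hv⟩ < 5 := by
        have := hfe ⟨v, hv⟩
        have := eccM_le ⟨v, hv⟩
        omega
      have h5 := cand_spec ⟨v, hv⟩ u ⟨f ⟨v, hv⟩, h4⟩ hpos (hfe ⟨v, hv⟩)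
      rw [hv']
      refine h5.trans ?_
      rw [decide_eq_true_iff]
      have h6 := hu2 ⟨v, hv⟩
      unfold Hears at h6
      rw [lower_apply, if_pos rfl, (G12_dist u ⟨v, hv⟩).2] at h6
      simp only at h6 hu1' ⊢
      omega
    · intro w hw hwv hwpos
      have hw' : F w = f ⟨w, hw⟩ := hFf ⟨w, hw⟩
      rw [hw'] at hwpos ⊢
      refine (hball ⟨w, hw⟩ u).trans ?_
      rw [decide_eq_false_iff_not]
      have h6 := hu2 ⟨w, hw⟩
      unfold Hears at h6
      rw [lower_apply, if_neg (by simpa using hwv), (G12_dist u ⟨w, hw⟩).2] at h6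
      exact fun h => h6 ⟨hwpos, h⟩
  · intro u hu
    obtain ⟨v, hv1, hv2⟩ := hd ⟨u, hu⟩
    rw [(G12_dist _ v).2] at hv2
    refine ⟨v, v.isLt, ?_, ?_⟩
    · rw [hFf v]; exact hv1
    · rw [hFf v]
      refine (hball v ⟨u, hu⟩).trans ?_
      rw [decide_eq_true_iff]
      exact hv2
  · intro v hv
    rw [show F v = f ⟨v, hv⟩ from hFf ⟨v, hv⟩]
    exact hfe ⟨v, hv⟩
  · intro u; simp
  · intro u; simp
  · intro c hc; simp at hc

lemma upperBroadcastDomination_le : upperBroadcastDomination G12 ≤ 4 := by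
  unfold upperBroadcastDomination
  apply csSup_le'
  rintro w ⟨f, hf, rfl⟩
  exact irredundant_dominating_weight_le f hf.1 hf.2.1 hf.irredundant

/-! ## A bnr-independent broadcast of weight 5 -/

/-- The broadcast `f(0) = 1`, `f(1) = f(2) = 2`. -/
def f0 : Fin 12 → ℕ := ![1, 2, 2, 0, 0, 0, 0, 0, 0, 0, 0, 0]

lemma le_ecc (v u : Fin 12) : dm v u ≤ ecc G12 v := by
  rw [← (G12_dist v u).2]
  exact Finset.le_sup (f := fun u => G12.dist v u) (Finset.mem_univ u)

lemma ecc_le_diameter {V : Type*} [Fintype V] (G : SimpleGraph V) (v : V) :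
    ecc G v ≤ diameter G :=
  Finset.le_sup (f := fun v => ecc G v) (Finset.mem_univ v)

lemma f0_bnr : BnrIndependent G12 f0 := by
  classical
  refine ⟨?_, ?_, ?_⟩
  · intro v
    have h : f0 v ≤ ecc G12 v := by
      have h2 : ∀ v : Fin 12, ∃ u : Fin 12, f0 v ≤ dm v u := by decide
      obtain ⟨u, hu⟩ := h2 v
      exact hu.trans (le_ecc v u)
    exact ⟨h.trans (ecc_le_diameter G12 v), h⟩
  · intro u v huv hu hv z hz
    obtain ⟨hz1, hz2⟩ := hz
    change G12.dist z u ≤ f0 u at hz1
    change G12.dist z v ≤ f0 v at hz2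
    rw [(G12_dist z u).2] at hz1
    rw [(G12_dist z v).2] at hz2
    change G12.dist z u = f0 u ∧ G12.dist z v = f0 v
    rw [(G12_dist z u).2, (G12_dist z v).2]
    have h : ∀ u v : Fin 12, u ≠ v → 0 < f0 u → 0 < f0 v → ∀ z : Fin 12,
        dm z u ≤ f0 u → dm z v ≤ f0 v → dm z u = f0 u ∧ dm z v = f0 v := by
      decide
    exact h u v huv hu hv z hz1 hz2
  · intro v hv
    have h : ∀ v : Fin 12, 0 < f0 v → ∃ u : Fin 12, dm u v ≤ f0 v ∧
        ∀ w : Fin 12, ¬ (0 < (if w = v then f0 v - 1 else f0 w) ∧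
          dm u w ≤ (if w = v then f0 v - 1 else f0 w)) := by
      decide
    obtain ⟨u, hu1, hu2⟩ := h v hv
    refine ⟨u, ?_, ?_⟩
    · change G12.dist u v ≤ f0 v
      rw [(G12_dist u v).2]
      exact hu1
    · intro w
      unfold Hears
      rw [lower_apply, (G12_dist u w).2]
      exact hu2 w

lemma bddAbove_bnr {V : Type*} [Fintype V] (G : SimpleGraph V) :
    BddAbove {w | ∃ f : V → ℕ, BnrIndependent G f ∧ weight f = w} := by
  refine ⟨∑ v, ecc G v, ?_⟩
  rintro w ⟨f, hf, rfl⟩
  exact Finset.sum_le_sum fun v _ => (hf.1 v).2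

lemma bddAbove_minimalDominating {V : Type*} [Fintype V] (G : SimpleGraph V) :
    BddAbove {w | ∃ f : V → ℕ, MinimalDominating G f ∧ weight f = w} := by
  refine ⟨∑ v, ecc G v, ?_⟩
  rintro w ⟨f, hf, rfl⟩
  exact Finset.sum_le_sum fun v _ => (hf.1 v).2

lemma le_upperBnr : 5 ≤ upperBnr G12 := by
  unfold upperBnr
  refine le_csSup (bddAbove_bnr G12) ⟨f0, f0_bnr, ?_⟩
  decide

/-- **Answer to Q1 (negative).** There is a 2-connected graph `G` with
`α_bnr(G) > Γ_b(G)`. -/
theorem result : ∃ (n : ℕ) (G : SimpleGraph (Fin n)),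
    TwoConnected G ∧ upperBroadcastDomination G < upperBnr G :=
  ⟨12, G12, G12_twoConnected,
    lt_of_le_of_lt upperBroadcastDomination_le (lt_of_lt_of_le (by norm_num) le_upperBnr)⟩

end Pool.Agent.Results.MP_20154b_co.TwinCounterexample
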